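import Pool.Agent.V11261.GR.Bl

/-!
MP_19ffc6_ag: resolution of the quotients of `X × 𝔸 ^ m`, where `X` is an affine variety of any
dimension, by finite flat group schemes of additive type over `X` (kernels of `F - A` on `𝔾_a ^ r`),
which act on `𝔸 ^ m` by translations, is reduced to the principalization of one explicit ideal of `X`:
the ideal generated by the determinants of the families of initial segments of the iterates of the
rows of `W` under the semilinear map of `A`. If the blowup of this ideal (or of its product with some
other ideal) is smooth, then the quotient has a resolution of singularities.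
-/

set_option autoImplicit false

open AlgebraicGeometry CategoryTheory MvPolynomial Pool.Agent.H920R2 Pool.Agent.W558

universe u

namespace Pool.Agent.Results.MP_19ffc6_ag.AdditiveTypeBlowup

/-- The structure morphism of the spectrum of a subalgebra. -/
noncomputable def str {k B : Type u} [Field k] [CommRing B] [Algebra k B] (C : Subalgebra k B) :
    Spec (CommRingCat.of C) ⟶ Spec (CommRingCat.of k) :=
  Spec.map (CommRingCat.ofHom (algebraMap k C))

/-- The spectrum of the subalgebra `C` is a variety and has a resolution of singularities: there
are an integral scheme `Y`, smooth over `k`, and a proper morphism from `Y` to the spectrum which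
is an isomorphism over a dense open subset. -/
def IsResolvable {k B : Type u} [Field k] [CommRing B] [Algebra k B] (C : Subalgebra k B) : Prop :=
  IsVariety (str C) ∧
  ∃ (Y : Scheme.{u}) (π : Y ⟶ Spec (CommRingCat.of C)),
    AlgebraicGeometry.IsIntegral Y ∧ AlgebraicGeometry.IsProper π ∧
    AlgebraicGeometry.Smooth (π ≫ str C) ∧
    ∃ U : (Spec (CommRingCat.of C)).Opens, Dense (U : Set (Spec (CommRingCat.of C))) ∧
      IsIso (π ∣_ U)

section defs

variable {B : Type u} [CommRing B] {m r : ℕ}

/-- The ideal `(x i ^ p - ∑ l, A i l * x l)` of the subgroup scheme `ker (F - A)` of `𝔾_a ^ r`,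
in `B[y 1, ..., y m][x 1, ..., x r]`. -/
noncomputable def groupIdeal (m p : ℕ) (A : Fin r → Fin r → B) :
    Ideal (MvPolynomial (Fin r) (MvPolynomial (Fin m) B)) :=
  Ideal.span (Set.range fun i => X i ^ p - ∑ l, C (C (A i l)) * X l)

/-- The homomorphism `f (y) ↦ f (y + W x)` from `B[y 1, ..., y m]` to
`B[y 1, ..., y m][x 1, ..., x r]`, where `(W x) j = ∑ l, W j l * x l`. -/
noncomputable def generic (W : Fin m → Fin r → B) :
    MvPolynomial (Fin m) B →ₐ[B] MvPolynomial (Fin r) (MvPolynomial (Fin m) B) :=
  aeval fun j => C (X j) + ∑ l, C (C (W j l)) * X l

/-- The algebra of the functions `f (y)` on `Spec B × 𝔸 ^ m` with `f (y + W x) ≡ f (y)` modulo the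
equations `x i ^ p = ∑ l, A i l * x l`. -/
noncomputable def invariants (k : Type u) [Field k] [Algebra k B] (p : ℕ) (A : Fin r → Fin r → B)
    (W : Fin m → Fin r → B) : Subalgebra k (MvPolynomial (Fin m) B) where
  carrier := {f | generic W f - C f ∈ groupIdeal m p A}
  mul_mem' := by
    intro f g hf hg
    have h : generic W (f * g) - C (f * g) =
        generic W g * (generic W f - C f) + C f * (generic W g - C g) := by
      rw [map_mul, C_mul]; ring
    change generic W (f * g) - C (f * g) ∈ groupIdeal m p A
    rw [h]
    exact Ideal.add_mem _ (Ideal.mul_mem_left _ _ hf) (Ideal.mul_mem_left _ _ hg)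
  add_mem' := by
    intro f g hf hg
    have h : generic W (f + g) - C (f + g) = (generic W f - C f) + (generic W g - C g) := by
      rw [map_add, C_add]; ring
    change generic W (f + g) - C (f + g) ∈ groupIdeal m p A
    rw [h]
    exact Ideal.add_mem _ hf hg
  algebraMap_mem' := by
    intro x
    have h : generic W (C (algebraMap k B x)) = C (C (algebraMap k B x)) :=
      (generic W).commutes _
    change generic W (C (algebraMap k B x)) - C (C (algebraMap k B x)) ∈ groupIdeal m p A
    rw [h, sub_self]
    exact Ideal.zero_mem _

/-- The map `v ↦ (∑ i, v i ^ p * A i l)` of `B ^ r`, semilinear for the Frobenius, given by `A`: modulo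
the equations of `ker (F - A)` the `p`-th power of the linear form `∑ l, v l * x l` is the linear form
of the vector `semi p A v`. -/
def semi (p : ℕ) (A : Fin r → Fin r → B) (v : Fin r → B) : Fin r → B := fun l =>
  ∑ i, v i ^ p * A i l

/-- The determinant, up to sign, of the rows `semi^[t] (W j)` for `t < n j`, if these are `r` rows
(if `n 1 + ... + n m = r`); otherwise `0`. -/
noncomputable def segment (p : ℕ) (A : Fin r → Fin r → B) (W : Fin m → Fin r → B) (n : Fin m → ℕ) :
    B :=
  if h : Fintype.card (Σ j, Fin (n j)) = r then
    (Matrix.of fun i => (semi p A)^[((Fintype.equivFinOfCardEq h).symm i).2.1]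
      (W ((Fintype.equivFinOfCardEq h).symm i).1)).det else 0

/-- The coordinate ring of the chart `y q ≠ 0` of the blowup of the ideal of `B` generated by the
elements `y q'`: the algebra generated by `B` and the fractions `y q' / y q`. -/
noncomputable def chart (k : Type u) {B : Type u} [Field k] [CommRing B] [IsDomain B]
    [Algebra k B] {Q : Type} (y : Q → B) (q : Q) : Subalgebra k (FractionRing B) :=
  Algebra.adjoin k (Set.range (algebraMap B (FractionRing B)) ∪ Set.range fun q' =>
    algebraMap B (FractionRing B) (y q') / algebraMap B (FractionRing B) (y q))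

end defs

/-- Let `k` be a field of characteristic `p` and `B` a domain of finite type over `k`, of any
dimension and possibly singular, `A` an `r × r` matrix and `W` an `m × r` matrix over `B`. The subgroup
scheme `H = ker (F - A)` of `𝔾_a ^ r`, defined by the equations `x i ^ p = ∑ l, A i l * x l`, is finite
and flat of order `p ^ r` over `B`; it may be étale at some points and infinitesimal at others. It acts
on `Spec B × 𝔸 ^ m` by the translations `y ↦ y + W x`. Suppose that not all determinants
`segment p A W n` are zero (the action is faithful over the generic point), and that for some ideal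
`J = (z 1, ..., z N) ≠ 0` the blowup of the product of `J` and of the ideal generated by the
`segment p A W n`, `n j ≤ r`, is smooth over `k`. Then the quotient, the spectrum of the ring of
invariants, is a variety and has a resolution of singularities. -/
theorem result (p : ℕ) [Fact p.Prime] (k : Type u) [Field k] [CharP k p]
    (B : Type u) [CommRing B] [IsDomain B] [Algebra k B] [Algebra.FiniteType k B] (m r : ℕ)
    (A : Fin r → Fin r → B) (W : Fin m → Fin r → B)
    (hdet : ∃ n : Fin m → Fin (r + 1), segment p A W (fun j => (n j).1) ≠ 0)
    (N : ℕ) (z : Fin N → B) (hz : ∃ l, z l ≠ 0)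
    (hs : ∀ q : Fin N × (Fin m → Fin (r + 1)),
      z q.1 * segment p A W (fun j => (q.2 j).1) ≠ 0 → Algebra.Smooth k
        (chart k (fun q : Fin N × (Fin m → Fin (r + 1)) =>
          z q.1 * segment p A W (fun j => (q.2 j).1)) q)) :
    IsResolvable (invariants k p A W) := by
  classical
  have hBp : CharP B p := charP_of_injective_algebraMap (FaithfulSMul.algebraMap_injective k B) p
  have heq : invariants k p A W = Pool.Agent.V11261.GK.ring k p A W := by
    ext f
    exact Iff.rfl
  rw [heq]
  exact Pool.Agent.V11261.GR.main_bl (p := p) A W z hz hdet hs

end Pool.Agent.Results.MP_19ffc6_ag.AdditiveTypeBlowup
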