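import Pool.Agent.V11261.GR.TorMain
import Pool.Agent.W558.T3.Base

/-!
MP_19ffc6_ag: resolution of the quotients of `S × 𝔸 ^ n × 𝔸 ^ m`, where `S` is a point, an affine
surface or has log smooth models, by finite flat group schemes of additive type over `S × 𝔸 ^ n`
(kernels of `F - A` on `𝔾_a ^ r`), which act on `𝔸 ^ m` by translations. Over `S` (the case `n = 0`)
the matrix `A` and the linear map `W` from `𝔾_a ^ r` to the translations are arbitrary; over
`S × 𝔸 ^ n` they are homogeneous for a grading of the polynomial ring by monomials.

The proof: over a valuation ring the lattice generated by the iterates of the rows of `W` under the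
semilinear map of `A` has a basis of initial segments of the iterates; after a log resolution on which
the determinants of these bases are comparable the lattice has such a basis on each chart, and the
quotient becomes an affine space over the chart. It uses the log resolution of surfaces in the library
`W558`.
-/

set_option autoImplicit false

open AlgebraicGeometry CategoryTheory MvPolynomial Pool.Agent.H920R2 Pool.Agent.W558

universe u

namespace Pool.Agent.Results.MP_19ffc6_ag.HomogeneousAdditiveType

/-- The structure morphism of the spectrum of a subalgebra. -/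
noncomputable def str {k B : Type u} [Field k] [CommRing B] [Algebra k B] (C : Subalgebra k B) :
    Spec (CommRingCat.of C) ⟶ Spec (CommRingCat.of k) :=
  Spec.map (CommRingCat.ofHom (algebraMap k C))

/-- The spectrum of the subalgebra `C` is a variety and has a resolution of singularities: there
are an integral scheme `Y`, smooth over `k`, and a proper morphism from `Y` to the spectrum which
is an isomorphism over a dense open subset. -/
def IsResolvable {k B : Type u} [Field k] [CommRing B] [Algebra k B] (C : Subalgebra k B) : Prop :=
  IsVariety (str C) ∧
  ∃ (Y : Scheme.{u}) (π : Y ⟶ Spec (CommRingCat.of C)),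
    AlgebraicGeometry.IsIntegral Y ∧ AlgebraicGeometry.IsProper π ∧
    AlgebraicGeometry.Smooth (π ≫ str C) ∧
    ∃ U : (Spec (CommRingCat.of C)).Opens, Dense (U : Set (Spec (CommRingCat.of C))) ∧
      IsIso (π ∣_ U)

section defs

variable {B : Type u} [CommRing B] {m r : ℕ}

/-- The ideal `(x i ^ p - ∑ l, A i l * x l)` of the subgroup scheme `ker (F - A)` of `𝔾_a ^ r`,
in `B[y 1, ..., y m][x 1, ..., x r]`. -/
noncomputable def groupIdeal (m p : ℕ) (A : Fin r → Fin r → B) :
    Ideal (MvPolynomial (Fin r) (MvPolynomial (Fin m) B)) :=
  Ideal.span (Set.range fun i => X i ^ p - ∑ l, C (C (A i l)) * X l)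

/-- The homomorphism `f (y) ↦ f (y + W x)` from `B[y 1, ..., y m]` to
`B[y 1, ..., y m][x 1, ..., x r]`, where `(W x) j = ∑ l, W j l * x l`. -/
noncomputable def generic (W : Fin m → Fin r → B) :
    MvPolynomial (Fin m) B →ₐ[B] MvPolynomial (Fin r) (MvPolynomial (Fin m) B) :=
  aeval fun j => C (X j) + ∑ l, C (C (W j l)) * X l

/-- The algebra of the functions `f (y)` on `Spec B × 𝔸 ^ m` with `f (y + W x) ≡ f (y)` modulo the
equations `x i ^ p = ∑ l, A i l * x l`. -/
noncomputable def invariants (k : Type u) [Field k] [Algebra k B] (p : ℕ) (A : Fin r → Fin r → B)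
    (W : Fin m → Fin r → B) : Subalgebra k (MvPolynomial (Fin m) B) where
  carrier := {f | generic W f - C f ∈ groupIdeal m p A}
  mul_mem' := by
    intro f g hf hg
    have h : generic W (f * g) - C (f * g) =
        generic W g * (generic W f - C f) + C f * (generic W g - C g) := by
      rw [map_mul, C_mul]; ring
    change generic W (f * g) - C (f * g) ∈ groupIdeal m p A
    rw [h]
    exact Ideal.add_mem _ (Ideal.mul_mem_left _ _ hf) (Ideal.mul_mem_left _ _ hg)
  add_mem' := by
    intro f g hf hg
    have h : generic W (f + g) - C (f + g) = (generic W f - C f) + (generic W g - C g) := by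
      rw [map_add, C_add]; ring
    change generic W (f + g) - C (f + g) ∈ groupIdeal m p A
    rw [h]
    exact Ideal.add_mem _ hf hg
  algebraMap_mem' := by
    intro x
    have h : generic W (C (algebraMap k B x)) = C (C (algebraMap k B x)) :=
      (generic W).commutes _
    change generic W (C (algebraMap k B x)) - C (C (algebraMap k B x)) ∈ groupIdeal m p A
    rw [h, sub_self]
    exact Ideal.zero_mem _

end defs

/-- Let `k` be a field of characteristic `p` and `B` a domain of finite type over `k`, possibly
singular, such that `B = k`, or `k` is perfect and the fraction field of `B` is the function field of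
a smooth projective surface over `k`, or any finite family of nonzero elements of the fraction field
has its zeros and poles in a simple normal crossings divisor on some smooth projective variety with
this function field (`HasLogModels`).

Let `A` be an `r × r` matrix and `W` an `m × r` matrix over `B[t 1, ..., t n]` of the form
`A i l = a i l * t ^ (p * β i - β l)` and `W j l = b j l * t ^ (α j - β l)`, with arbitrary matrices
`a`, `b` over `B` and exponents `α j`, `β l` (for `n = 0` these are arbitrary matrices `A`, `W` over
`B`). The subgroup scheme `H = ker (F - A)` of `𝔾_a ^ r`, defined by the equations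
`x i ^ p = ∑ l, A i l * x l`, is finite and flat of order `p ^ r` over `B[t]`; it may be étale at some
points and infinitesimal at others. It acts on `Spec B × 𝔸 ^ n × 𝔸 ^ m` by the translations
`y ↦ y + W x` of the last factor. The quotient, the spectrum of the ring of invariants, is a variety
and has a resolution of singularities. -/
theorem result (p : ℕ) [Fact p.Prime] (k : Type u) [Field k] [CharP k p]
    (B : Type u) [CommRing B] [IsDomain B] [Algebra k B] [Algebra.FiniteType k B]
    (hB : Function.Surjective (algebraMap k B) ∨
      (PerfectField k ∧ Algebra.trdeg k (FractionRing B) = 2 ∧ HasModel k (FractionRing B)) ∨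
      HasLogModels k (FractionRing B)) (n m r : ℕ)
    (A : Fin r → Fin r → MvPolynomial (Fin n) B) (W : Fin m → Fin r → MvPolynomial (Fin n) B)
    (a : Fin r → Fin r → B) (b : Fin m → Fin r → B) (α : Fin m → Fin n → ℕ)
    (β : Fin r → Fin n → ℕ)
    (hA : ∀ i l, A i l * ∏ s, X s ^ β l s = C (a i l) * ∏ s, X s ^ (p * β i s))
    (hW : ∀ j l, W j l * ∏ s, X s ^ β l s = C (b j l) * ∏ s, X s ^ α j s) :
    IsResolvable (invariants k p A W) := by
  classical
  have hBp : CharP B p := charP_of_injective_algebraMap (FaithfulSMul.algebraMap_injective k B) p
  have hE : Pool.Agent.W418.LCI.HasLM k (FractionRing B) := by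
    rcases hB with h | ⟨_, h2, hE⟩ | h
    · refine Pool.Agent.V11261.AK.hasLM_of_surjective fun x => ?_
      obtain ⟨x, y, hy, rfl⟩ := IsFractionRing.div_surjective (A := B) x
      obtain ⟨x, rfl⟩ := h x
      obtain ⟨y, rfl⟩ := h y
      exact ⟨x / y, by
        rw [map_div₀, IsScalarTower.algebraMap_apply k B (FractionRing B) x,
          IsScalarTower.algebraMap_apply k B (FractionRing B) y]⟩
    · exact Pool.Agent.W418.LCI.hasLM_of_surface k _ h2 hE
    · exact Pool.Agent.W418.LCI.hasLM_of_models k _ h
  have heq : invariants k p A W = Pool.Agent.V11261.GK.ring k p A W := by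
    ext f
    exact Iff.rfl
  rw [heq]
  exact Pool.Agent.V11261.GR.main_tor (p := p) hE A W a b α β hA hW

end Pool.Agent.Results.MP_19ffc6_ag.HomogeneousAdditiveType
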