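import Pool.Agent.V11261.EQ.LinMain
import Pool.Agent.V11261.AK.Base
import Pool.Agent.W558.T3.Base
import Pool.Agent.H920R2.Trans

/-!
MP_19ffc6_ag: resolution of the quotients of trivial vector bundles `S × 𝔸 ^ (n + m)` over affine
surfaces `S` by linear actions `(t, y) ↦ (t, y 1 + g 1 * ℓ 1 (t), ..., y m + g m * ℓ m (t))`, with
arbitrary linear forms `ℓ j` over `S`, of finite groups of vectors `g`, of Frobenius kernels of the
additive group and of group schemes `T ^ p = b T` of order `p` which degenerate over curves in `S`.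

The proof: the functions `c * ℓ 1 ^ γ 1 * ... * ℓ m ^ γ m`, with `c` in the function field of `S`,
are closed under the operations of the algorithm which computes the invariants; after a log
resolution of the arrangement of the hyperplanes `ℓ j = 0` over the surface (library `W418`, `W558`)
the quotient becomes smooth.
-/

set_option autoImplicit false

open AlgebraicGeometry CategoryTheory MvPolynomial Pool.Agent.H920R2 Pool.Agent.W558

universe u

namespace Pool.Agent.Results.MP_19ffc6_ag.LinearGroupSchemes

/-- The structure morphism of the spectrum of a subalgebra. -/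
noncomputable def str {k B : Type u} [Field k] [CommRing B] [Algebra k B] (C : Subalgebra k B) :
    Spec (CommRingCat.of C) ⟶ Spec (CommRingCat.of k) :=
  Spec.map (CommRingCat.ofHom (algebraMap k C))

/-- The spectrum of the subalgebra `C` is a variety and has a resolution of singularities: there
are an integral scheme `Y`, smooth over `k`, and a proper morphism from `Y` to the spectrum which
is an isomorphism over a dense open subset. -/
def IsResolvable {k B : Type u} [Field k] [CommRing B] [Algebra k B] (C : Subalgebra k B) : Prop :=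
  IsVariety (str C) ∧
  ∃ (Y : Scheme.{u}) (π : Y ⟶ Spec (CommRingCat.of C)),
    AlgebraicGeometry.IsIntegral Y ∧ AlgebraicGeometry.IsProper π ∧
    AlgebraicGeometry.Smooth (π ≫ str C) ∧
    ∃ U : (Spec (CommRingCat.of C)).Opens, Dense (U : Set (Spec (CommRingCat.of C))) ∧
      IsIso (π ∣_ U)

section defs

variable {B : Type u} [CommRing B] {n m : ℕ}

/-- The vector `(g 1 * ℓ 1 (t), ..., g m * ℓ m (t))` over `B[t 1, ..., t n]`, where
`ℓ j (t) = ∑ i, a j i * t i`. -/
noncomputable def vec (a : Fin m → Fin n → B) (g : Fin m → B) : Fin m → MvPolynomial (Fin n) B :=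
  fun j => C (g j) * ∑ i, C (a j i) * X i

/-- The linear map `(t, y) ↦ (t, y + vec a g)`, on the polynomials in `y 1, ..., y m` over
`B[t 1, ..., t n]`. -/
noncomputable def shift (a : Fin m → Fin n → B) (g : Fin m → B) :
    MvPolynomial (Fin m) (MvPolynomial (Fin n) B) →ₐ[MvPolynomial (Fin n) B]
      MvPolynomial (Fin m) (MvPolynomial (Fin n) B) :=
  aeval fun j => X j + C (vec a g j)

/-- The linear map `(t, y) ↦ (t, y + T * vec a g)` with an indeterminate `T`. -/
noncomputable def generic (a : Fin m → Fin n → B) (g : Fin m → B) :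
    MvPolynomial (Fin m) (MvPolynomial (Fin n) B) →ₐ[MvPolynomial (Fin n) B]
      Polynomial (MvPolynomial (Fin m) (MvPolynomial (Fin n) B)) :=
  aeval fun j => Polynomial.C (X j) + Polynomial.X * Polynomial.C (C (vec a g j))

/-- The algebra of the functions `f (t, y)` on `Spec B × 𝔸 ^ (n + m)` (the polynomials in
`y 1, ..., y m` over `B[t 1, ..., t n]`) which are invariant under

* the linear maps `(t, y) ↦ (t, y + vec a g)` for all `g` in the group `G`,
* the linear maps `(t, y) ↦ (t, y + T * vec a (v i))` with `T ^ (p ^ s i) = 0`,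
* the linear maps `(t, y) ↦ (t, y + T * vec a (w i))` with `T ^ p = b i T`. -/
noncomputable def invariants (k : Type u) [Field k] [Algebra k B] (p : ℕ)
    (a : Fin m → Fin n → B) (G : AddSubgroup (Fin m → B)) {r q : ℕ} (v : Fin r → Fin m → B)
    (s : Fin r → ℕ) (w : Fin q → Fin m → B) (b : Fin q → B) :
    Subalgebra k (MvPolynomial (Fin m) (MvPolynomial (Fin n) B)) where
  carrier := {f | (∀ g ∈ G, shift a g f = f) ∧
    (∀ i, Polynomial.X ^ p ^ s i ∣ generic a (v i) f - Polynomial.C f) ∧
    ∀ i, Polynomial.X ^ p - Polynomial.C (C (C (b i))) * Polynomial.X ∣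
      generic a (w i) f - Polynomial.C f}
  mul_mem' := by
    have key : ∀ (v : Fin m → B) (Λ : Polynomial (MvPolynomial (Fin m) (MvPolynomial (Fin n) B)))
        (f g : MvPolynomial (Fin m) (MvPolynomial (Fin n) B)),
        Λ ∣ generic a v f - Polynomial.C f → Λ ∣ generic a v g - Polynomial.C g →
        Λ ∣ generic a v (f * g) - Polynomial.C (f * g) := by
      intro v Λ f g hf hg
      have h : generic a v (f * g) - Polynomial.C (f * g) =
          (generic a v f - Polynomial.C f) * generic a v g +
            Polynomial.C f * (generic a v g - Polynomial.C g) := by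
        rw [map_mul, map_mul]; ring
      rw [h]
      exact dvd_add (dvd_mul_of_dvd_left hf _) (dvd_mul_of_dvd_right hg _)
    rintro f g ⟨h1, h2, h3⟩ ⟨h4, h5, h6⟩
    exact ⟨fun a ha => by rw [map_mul, h1 a ha, h4 a ha], fun i => key _ _ _ _ (h2 i) (h5 i),
      fun i => key _ _ _ _ (h3 i) (h6 i)⟩
  add_mem' := by
    have key : ∀ (v : Fin m → B) (Λ : Polynomial (MvPolynomial (Fin m) (MvPolynomial (Fin n) B)))
        (f g : MvPolynomial (Fin m) (MvPolynomial (Fin n) B)),
        Λ ∣ generic a v f - Polynomial.C f → Λ ∣ generic a v g - Polynomial.C g →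
        Λ ∣ generic a v (f + g) - Polynomial.C (f + g) := by
      intro v Λ f g hf hg
      have h : generic a v (f + g) - Polynomial.C (f + g) =
          (generic a v f - Polynomial.C f) + (generic a v g - Polynomial.C g) := by
        rw [map_add, map_add]; ring
      rw [h]
      exact dvd_add hf hg
    rintro f g ⟨h1, h2, h3⟩ ⟨h4, h5, h6⟩
    exact ⟨fun a ha => by rw [map_add, h1 a ha, h4 a ha], fun i => key _ _ _ _ (h2 i) (h5 i),
      fun i => key _ _ _ _ (h3 i) (h6 i)⟩
  algebraMap_mem' := by
    have key : ∀ (v : Fin m → B) (Λ : Polynomial (MvPolynomial (Fin m) (MvPolynomial (Fin n) B)))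
        (c : MvPolynomial (Fin n) B), Λ ∣ generic a v (C c) - Polynomial.C (C c) := by
      intro v Λ c
      have h : generic a v (C c) = Polynomial.C (C c) := (generic a v).commutes c
      exact ⟨0, (sub_eq_zero.2 h).trans (mul_zero Λ).symm⟩
    intro c
    exact ⟨fun g _ => (shift a g).commutes (algebraMap k (MvPolynomial (Fin n) B) c),
      fun i => key _ _ _, fun i => key _ _ _⟩

end defs

/-- Let `k` be a perfect field of characteristic `p` and `B` a domain of finite type over `k`,
possibly singular, whose fraction field is the function field of a smooth projective surface over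
`k`, or has log smooth models (`HasLogModels`), or `B = k`. Let `ℓ 1, ..., ℓ m` be arbitrary linear
forms in `t 1, ..., t n` over `B`, `ℓ j = ∑ i, a j i * t i`. Let `G` be a finite group of vectors in
`B ^ m`, let `v i` and `w i` be arbitrary vectors in `B ^ m`, `s i` natural numbers and `b i`
elements of `B`. The group scheme over `B` which is the product of the finite group `G`, of the
Frobenius kernels `T ^ (p ^ s i) = 0` of the additive group and of the group schemes `T ^ p = b i T`
acts linearly on the vector bundle `Spec B × 𝔸 ^ (n + m)`: `(g, T, T')` maps `(t, y)` to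
`(t, y 1 + c 1 * ℓ 1 (t), ..., y m + c m * ℓ m (t))`, `c = g + ∑ i, T i * v i + ∑ i, T' i * w i`.
The quotient is a variety and has a resolution of singularities. -/
theorem result (p : ℕ) [Fact p.Prime] (k : Type u) [Field k] [PerfectField k] [CharP k p]
    (B : Type u) [CommRing B] [IsDomain B] [Algebra k B] [Algebra.FiniteType k B]
    (hB : (Algebra.trdeg k (FractionRing B) = 2 ∧ HasModel k (FractionRing B)) ∨
      HasLogModels k (FractionRing B) ∨ Function.Surjective (algebraMap k B))
    (n m : ℕ) (a : Fin m → Fin n → B) (G : AddSubgroup (Fin m → B)) [Finite G] (r : ℕ)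
    (v : Fin r → Fin m → B) (s : Fin r → ℕ) (q : ℕ) (w : Fin q → Fin m → B) (b : Fin q → B) :
    IsResolvable (invariants k p a G v s w b) := by
  classical
  have hBp : CharP B p := charP_of_injective_algebraMap (FaithfulSMul.algebraMap_injective k B) p
  have h𝔅p : CharP (MvPolynomial (Fin n) B) p := inferInstance
  have hE : Pool.Agent.W418.LCI.HasLM k (FractionRing B) := by
    rcases hB with ⟨h2, hE⟩ | hE | h
    · exact Pool.Agent.W418.LCI.hasLM_of_surface k _ h2 hE
    · exact Pool.Agent.W418.LCI.hasLM_of_models k _ hE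
    · refine Pool.Agent.V11261.AK.hasLM_of_surjective fun x => ?_
      obtain ⟨x, y, hy, rfl⟩ := IsFractionRing.div_surjective (A := B) x
      obtain ⟨x, rfl⟩ := h x
      obtain ⟨y, rfl⟩ := h y
      exact ⟨x / y, by
        rw [map_div₀, IsScalarTower.algebraMap_apply k B (FractionRing B) x,
          IsScalarTower.algebraMap_apply k B (FractionRing B) y]⟩
  have : Fintype G := Fintype.ofFinite G
  let ι : Type u := ULift (Fin q) ⊕ G
  let w' : ι → Fin m → B := Sum.elim (fun i => w i.down) (fun g => g.1)
  let b' : ι → B := Sum.elim (fun i => b i.down) (fun g => 1)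
  let L := Pool.Agent.V11261.TQ.ops p (fun i => vec a (v i)) s (fun i => vec a (w' i))
    (fun i => (C (b' i) : MvPolynomial (Fin n) B))
  have hL := Pool.Agent.V11261.TQ.ops_pairwise (p := p) (fun i => vec a (v i)) s
    (fun i => vec a (w' i)) (fun i => (C (b' i) : MvPolynomial (Fin n) B))
  have hOk := Pool.Agent.V11261.TQ.ops_ok (p := p) (fun i => vec a (v i)) s
    (fun i => vec a (w' i)) (fun i => (C (b' i) : MvPolynomial (Fin n) B))
  have hgen : ∀ u : Fin m → B, generic a u = Pool.Agent.V11261.TQ.tr (vec a u) := fun _ => rfl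
  have hsh : ∀ u : Fin m → B, shift a u = Pool.Agent.V11261.TQ.sh (vec a u) := fun _ => rfl
  have hInv : ∀ (u : Fin m → B) (c : MvPolynomial (Fin n) B)
      (f : MvPolynomial (Fin m) (MvPolynomial (Fin n) B)),
      Pool.Agent.V11261.TQ.Inv (vec a u) p c f ↔
        Polynomial.X ^ p - Polynomial.C (C c) * Polynomial.X ∣
          Pool.Agent.V11261.TQ.tr (vec a u) f - Polynomial.C f := fun _ _ _ => Iff.rfl
  have hG : ∀ f : MvPolynomial (Fin m) (MvPolynomial (Fin n) B),
      (∀ g : G, Pool.Agent.V11261.TQ.Inv (vec a g.1) p 1 f) ↔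
      ∀ g ∈ G, Pool.Agent.V11261.TQ.sh (vec a g) f = f := by
    intro f
    constructor
    · intro h g hg
      have h3 := (Pool.Agent.V11261.TQ.inv_iff (p := p) (vec a g) f).1 (h ⟨g, hg⟩) 1
      have h4 : (fun j => ZMod.castHom (dvd_refl p) (MvPolynomial (Fin n) B) 1 * vec a g j) =
          vec a g := by
        funext j
        rw [map_one, one_mul]
      rw [h4] at h3
      exact h3
    · intro h g
      refine (Pool.Agent.V11261.TQ.inv_iff (p := p) (vec a g.1) f).2 fun c => ?_
      have h5 : (fun j => ZMod.castHom (dvd_refl p) (MvPolynomial (Fin n) B) c * vec a g.1 j) =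
          vec a (c.val • g.1) := by
        funext j
        change _ = C ((c.val • g.1) j) * _
        rw [Pi.smul_apply, nsmul_eq_mul, C_mul, mul_assoc]
        congr 1
        rw [map_natCast, ← map_natCast (ZMod.castHom (dvd_refl p) (MvPolynomial (Fin n) B)),
          ZMod.natCast_zmod_val]
      rw [h5]
      exact h _ (G.nsmul_mem g.2 _)
  have heq : invariants k p a G v s w b = Pool.Agent.V11261.TQ.ring k L := by
    ext f
    have h1 : f ∈ invariants k p a G v s w b ↔ (∀ g ∈ G, shift a g f = f) ∧
      (∀ i, Polynomial.X ^ p ^ s i ∣ generic a (v i) f - Polynomial.C f) ∧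
      ∀ i, Polynomial.X ^ p - Polynomial.C (C (C (b i))) * Polynomial.X ∣
        generic a (w i) f - Polynomial.C f := Iff.rfl
    have h2 := Pool.Agent.V11261.TQ.mem_ring_ops (p := p) (k := k) (fun i => vec a (v i)) s
      (fun i => vec a (w' i)) (fun i => (C (b' i) : MvPolynomial (Fin n) B)) f
    rw [h1]
    refine Iff.trans ?_ h2.symm
    simp only [hgen, hsh, ← hInv]
    rw [← hG]
    constructor
    · rintro ⟨h3, h4, h5⟩
      refine ⟨h4, fun i => ?_⟩
      rcases i with i | g
      · exact h5 i.down
      · have h6 : (C (b' (Sum.inr g)) : MvPolynomial (Fin n) B) = 1 := C_1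
        rw [h6]
        exact h3 g
    · rintro ⟨h4, h5⟩
      refine ⟨fun g => ?_, h4, fun i => h5 (Sum.inl ⟨i⟩)⟩
      have h6 : (C (b' (Sum.inr g)) : MvPolynomial (Fin n) B) = 1 := C_1
      have h7 := h5 (Sum.inr g)
      rw [h6] at h7
      exact h7
  rw [heq]
  have hft0 : Algebra.FiniteType k (MvPolynomial (Fin n) B) := by
    have : Algebra.FiniteType B (MvPolynomial (Fin n) B) := inferInstance
    exact Algebra.FiniteType.trans (S := B) inferInstance inferInstance
  have hft : Algebra.FiniteType k (Pool.Agent.V11261.TQ.ring k L) :=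
    Pool.Agent.V11261.TQ.finiteType (p := p) L hL hOk
  exact ⟨isVariety_spec, Pool.Agent.V11261.EQ.hasResolution_linear (p := p) hE a v s w' b'⟩

end Pool.Agent.Results.MP_19ffc6_ag.LinearGroupSchemes
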