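import Pool.Agent.V1128.INV.Res2

/-!
MP_19ffc6_ag: resolution of singularities, in every dimension, for affine varieties over
perfect fields descends along quadratic extensions of the function field with
nondegenerate wild fixed points.

Let `Spec B` be an affine variety over a perfect field `k` and `K` a quadratic Galois extension of its
field of fractions, with the involution `σ`. Let `X` be a regular integral
scheme, projective over `B`, with the function field `K`, to which `σ` extends (for instance the
normalization of `Spec B` in `K`, if it is regular, or a resolution of it; in particular `B` may be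
the ring of invariants of an involution of a regular or of a singular ring). It is given by
homogeneous coordinates `H j` in `K`: its charts are the spectra of the rings
`B[H 0 / H j, ..., H N / H j] ⊆ K`. A `σ`-stable module `I ≠ 0` of linear forms cuts out the centre,
a regular subscheme (it is empty if `I` is the module of all linear forms). At the fixed points of
characteristic `2`:

* outside the centre, `σ = 1 + t δ`, where the ideal generated by the image of `δ` is the unit
  ideal or has a regular quotient (the fixed scheme is the sum of the divisor `t = 0` and of a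
  regular scheme),
* on the centre, `σ = 1 + t δ`, `δ ∘ δ = ε δ`, where `ε` and the image of `δ` are in the ideal of the
  centre, which `δ` maps into its square, and the leading form of `δ` along the centre has no zeros.

Then `Spec B` has a resolution of singularities. It is a blowing-up of a fractional ideal; its
charts are regular, hence smooth over the perfect field `k`.
-/

set_option autoImplicit false

open AlgebraicGeometry CategoryTheory

namespace Pool.Agent.Results.MP_19ffc6_ag.QuadraticDescent

section conditions

variable {B K : Type} [CommRing B] [Field K] [Algebra B K]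

/-- The ring `B[H 0 / H j, ..., H N / H j]` of the chart `H j ≠ 0` of `X`. -/
def chartRing (B : Type) {K : Type} [CommRing B] [Field K] [Algebra B K] {N : ℕ}
    (H : Fin (N + 1) → K) (j : Fin (N + 1)) : Subring K :=
  (Algebra.adjoin B (Set.range fun l => H l / H j)).toSubring

/-- The local ring at the prime `𝔮` of the subring `A` of the field `K`, as a subring of `K`. -/
noncomputable def localRing (A : Subring K) (𝔮 : Ideal A) [𝔮.IsPrime] : Subring K :=
  (LocalSubring.ofPrime A 𝔮).toSubring

/-- The ideal generated by the linear forms in `I` (divided by the linear form `h`) in `Q`. -/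
def centreIdeal (I : Submodule B K) (h : K) (Q : Subring K) : Ideal Q :=
  Ideal.span {y : Q | ∃ n ∈ I, (y : K) = n / h}

variable (σ : K ≃ₐ[B] K)

/-- The point with the local ring `Q` is a point of the fixed scheme of `σ`: the ring `Q` is stable
under `σ`, which acts trivially on its residue field. -/
def IsFixed (Q : Subring K) : Prop :=
  ∀ x : Q, ∃ y : Q, (y : K) = σ x ∧ ¬ IsUnit (y - x)

/-- `σ = 1 + t δ` on `Q`, where the ideal generated by the image of `δ` is the unit ideal, or has a
regular quotient: the fixed scheme is the sum of the divisor of `t` and a regular scheme. -/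
def RegularWild (Q : Subring K) : Prop :=
  ∃ (t : Q) (δ : Q → Q), t ≠ 0 ∧ (∀ x : Q, σ x = x + t * δ x) ∧
    (Ideal.span (Set.range δ) = ⊤ ∨ IsRegularLocalRing (Q ⧸ Ideal.span (Set.range δ)))

/-- `σ = 1 + t δ` on `Q`, and `δ ∘ δ = ε δ`, where `ε` and the image of `δ` are in the ideal `I` of
the centre, and `δ` maps `I` to `I ^ 2`, and the leading form of `δ` along the centre has no zeros:
the products of `n + 2` elements of `I` are combinations of the elements `ε a` and `δ(x) a`,
`a ∈ I ^ (n + 1)`, and `δ(y) b`, `y ∈ I`, `b ∈ I ^ n`. -/
def NondegenerateWild (Q : Subring K) (I : Ideal Q) : Prop :=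
  ∃ (t ε : Q) (δ : Q → Q), t ≠ 0 ∧ (∀ x : Q, σ x = x + t * δ x) ∧ (∀ x, δ (δ x) = ε * δ x) ∧
    ε ∈ I ∧ (∀ x, δ x ∈ I) ∧ (∀ x ∈ I, δ x ∈ I ^ 2) ∧
    ∃ n : ℕ, I ^ (n + 2) ≤ (Ideal.span {ε} ⊔ Ideal.span (Set.range δ)) * I ^ (n + 1) ⊔
      Ideal.span (δ '' I) * I ^ n

/-- The centre is empty or regular at the point with the local ring `Q`, and the fixed points of
characteristic `2` outside the centre, and on the centre, satisfy the respective condition. -/
def PointCondition (Q : Subring K) (I : Ideal Q) : Prop :=
  (I = ⊤ ∨ IsRegularLocalRing (Q ⧸ I)) ∧
    (¬ IsUnit (2 : Q) → IsFixed σ Q →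
      (I = ⊤ → RegularWild σ Q) ∧ (I ≠ ⊤ → NondegenerateWild σ Q I))

end conditions

/-- The structure morphism of the spectrum of a `k`-algebra. -/
noncomputable def str (k B : Type) [Field k] [CommRing B] [Algebra k B] :
    Spec (CommRingCat.of B) ⟶ Spec (CommRingCat.of k) :=
  Spec.map (CommRingCat.ofHom (algebraMap k B))

/-- The spectrum of `B` is a variety over `k` (integral, separated and of finite type) and has
a resolution of singularities: there are an integral scheme `Y`, smooth over `k`, and a proper
morphism from `Y` to the spectrum which is an isomorphism over a dense open subset. -/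
def IsResolvable (k B : Type) [Field k] [CommRing B] [Algebra k B] : Prop :=
  (AlgebraicGeometry.IsIntegral (Spec (CommRingCat.of B)) ∧
    AlgebraicGeometry.IsSeparated (str k B) ∧ AlgebraicGeometry.LocallyOfFiniteType (str k B) ∧
    AlgebraicGeometry.QuasiCompact (str k B)) ∧
  ∃ (Y : Scheme.{0}) (π : Y ⟶ Spec (CommRingCat.of B)),
    AlgebraicGeometry.IsIntegral Y ∧ AlgebraicGeometry.IsProper π ∧
    AlgebraicGeometry.Smooth (π ≫ str k B) ∧
    ∃ U : (Spec (CommRingCat.of B)).Opens, Dense (U : Set (Spec (CommRingCat.of B))) ∧
      IsIso (π ∣_ U)

/-- Let `k` be a perfect field, `B` a domain of finite type over `k`, `X` a regular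
integral scheme, projective over `B`, with the homogeneous coordinates `H j` in its function field
`K`, and `σ ≠ 1` an involution of `K` over `B` which maps linear forms to linear forms, such that
the field of the invariants of `σ` is the field of fractions of `B`. Let `I ≠ 0` be a `σ`-stable
module of linear forms, such that the condition `PointCondition` is satisfied at all points of `X`.
Then the variety `Spec B` has a resolution of singularities. -/
theorem result (k B : Type) [Field k] [PerfectField k] [CommRing B] [IsDomain B] [Algebra k B]
    (hB : Algebra.FiniteType k B)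
    (K : Type) [Field K] [Algebra B K] (hinj : Function.Injective (algebraMap B K))
    {N : ℕ} (H : Fin (N + 1) → K) (hH : ∀ j, H j ≠ 0)
    (hreg : ∀ j, IsRegularRing (chartRing B H j))
    (hfrac : ∀ y : K, ∃ a ∈ chartRing B H 0, ∃ b ∈ chartRing B H 0, b ≠ 0 ∧ y = a / b)
    (σ : K ≃ₐ[B] K) (hσ : ∀ y, σ (σ y) = y) (hσ1 : σ ≠ 1)
    (hσH : ∀ j, σ (H j) ∈ Submodule.span B (Set.range H))
    (hinv : ∀ y, σ y = y → ∃ r s : B, s ≠ 0 ∧ y = algebraMap B K r / algebraMap B K s)
    (I : Submodule B K) (hI : I ≤ Submodule.span B (Set.range H)) (hI0 : I ≠ ⊥)
    (hσI : ∀ x ∈ I, σ x ∈ I)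
    (h : ∀ j (𝔮 : Ideal (chartRing B H j)) [𝔮.IsPrime],
      PointCondition σ (localRing (chartRing B H j) 𝔮)
        (centreIdeal I (H j) (localRing (chartRing B H j) 𝔮))) :
    IsResolvable k B := by
  have hcl : Subfield.closure (chartRing B H 0 : Set K) = ⊤ := by
    rw [← top_le_iff]
    intro y _
    obtain ⟨a, ha, b, hb, -, rfl⟩ := hfrac y
    exact Subfield.div_mem _ (Subfield.subset_closure ha) (Subfield.subset_closure hb)
  have hσ1' : ∃ x, σ x ≠ x := by
    by_contra hcon
    push Not at hcon
    exact hσ1 (AlgEquiv.ext hcon)
  exact Pool.Agent.V1128.INV.res_descent hB hinj H hH hreg hcl σ hσ hσ1' hσH hinv I hI hI0 hσI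
    h

end Pool.Agent.Results.MP_19ffc6_ag.QuadraticDescent
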